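import Pool.Agent.BLP.StmtsA

/-!
Row A_CTL of squad BLP: continuity of the last-passage value in both times.
-/

namespace Pool.Agent.BLP.H72

open Finset Filter Topology

/-- uniform modulus of continuity of finitely many levels on a compact interval -/
theorem unif_levels (b : Env) (hb : Cts b) (m n : ℤ) (A C e : ℝ) (he : 0 < e) :
    ∃ d : ℝ, 0 < d ∧ ∀ r, m ≤ r → r ≤ n → ∀ x y, A ≤ x → x ≤ C → A ≤ y → y ≤ C →
      |x - y| < d → |b r x - b r y| ≤ e := by
  have hF : Continuous (fun x : ℝ => fun r : (Finset.Icc m n : Finset ℤ) => b r x) :=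
    continuous_pi fun r => hb r
  have hU := (isCompact_Icc (a := A) (b := C)).uniformContinuousOn_of_continuous hF.continuousOn
  rw [Metric.uniformContinuousOn_iff] at hU
  obtain ⟨d, hd, h⟩ := hU e he
  refine ⟨d, hd, ?_⟩
  intro r hr1 hr2 x y hx1 hx2 hy1 hy2 hxy
  have h1 := h x ⟨hx1, hx2⟩ y ⟨hy1, hy2⟩ (by rw [Real.dist_eq]; exact hxy)
  have h2 := (dist_le_pi_dist (fun r : (Finset.Icc m n : Finset ℤ) => b r x)
    (fun r : (Finset.Icc m n : Finset ℤ) => b r y) ⟨r, Finset.mem_Icc.2 ⟨hr1, hr2⟩⟩).trans h1.le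
  rw [Real.dist_eq] at h2
  exact h2

theorem a_ctl (one : OneStmt) (mod : ModStmt) : CtlStmt := by
  intro b hb m n hmn
  have hlen : (1 : ℝ) ≤ (n : ℝ) - m + 1 := by
    have : (m : ℝ) ≤ n := by exact_mod_cast hmn
    linarith
  rintro ⟨s₀, t₀⟩ h0
  have h0' : s₀ ≤ t₀ := h0
  rw [Metric.continuousWithinAt_iff]
  intro ε hε
  set N : ℝ := (n : ℝ) - m + 1 with hN
  have hNpos : 0 < N := by linarith
  have he : 0 < ε / (4 * N) := by positivity
  obtain ⟨d, hd, hu⟩ := unif_levels b hb m n (s₀ - 1) (t₀ + 1) (ε / (4 * N)) he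
  have hNe : N * (ε / (4 * N)) = ε / 4 := by
    field_simp
  have hM := fun w => mod b hb m n w hmn
  rcases h0'.lt_or_eq with hlt | heq
  · refine ⟨min (min d 1) ((t₀ - s₀) / 3), by
      refine lt_min (lt_min hd one_pos) (by linarith), ?_⟩
    rintro ⟨s, t⟩ hst hdist
    have hst' : s ≤ t := hst
    rw [Prod.dist_eq, max_lt_iff, Real.dist_eq, Real.dist_eq] at hdist
    obtain ⟨hs, ht⟩ := hdist
    have hs : |s - s₀| < min (min d 1) ((t₀ - s₀) / 3) := hs
    have ht : |t - t₀| < min (min d 1) ((t₀ - s₀) / 3) := ht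
    rw [lt_min_iff, lt_min_iff] at hs ht
    obtain ⟨⟨hs1, hs2⟩, hs3⟩ := hs
    obtain ⟨⟨ht1, ht2⟩, ht3⟩ := ht
    have hs1' := abs_lt.1 hs1
    have hs2' := abs_lt.1 hs2
    have hs3' := abs_lt.1 hs3
    have ht1' := abs_lt.1 ht1
    have ht2' := abs_lt.1 ht2
    have ht3' := abs_lt.1 ht3
    rw [Real.dist_eq]
    show |L b m s n t - L b m s₀ n t₀| < ε
    -- first step
    have h1 : |L b m s n t - L b m s₀ n t| ≤ ε / 4 := by
      rcases le_total s s₀ with hc | hc
      · have := (hM (ε / (4 * N))).1 s s₀ t hc (by linarith) (by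
          intro r hr1 hr2 x y hx1 hx2 hy1 hy2
          exact hu r hr1 hr2 x y (by linarith) (by linarith) (by linarith) (by linarith)
            (by rw [abs_lt]; constructor <;> linarith))
        rw [hNe] at this
        exact this
      · have := (hM (ε / (4 * N))).1 s₀ s t hc hst' (by
          intro r hr1 hr2 x y hx1 hx2 hy1 hy2
          exact hu r hr1 hr2 x y (by linarith) (by linarith) (by linarith) (by linarith)
            (by rw [abs_lt]; constructor <;> linarith))
        rw [hNe, abs_sub_comm] at this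
        exact this
    have h2 : |L b m s₀ n t - L b m s₀ n t₀| ≤ ε / 4 := by
      rcases le_total t t₀ with hc | hc
      · have := (hM (ε / (4 * N))).2.1 s₀ t t₀ (by linarith) hc (by
          intro r hr1 hr2 x y hx1 hx2 hy1 hy2
          exact hu r hr1 hr2 x y (by linarith) (by linarith) (by linarith) (by linarith)
            (by rw [abs_lt]; constructor <;> linarith))
        rw [hNe, abs_sub_comm] at this
        exact this
      · have := (hM (ε / (4 * N))).2.1 s₀ t₀ t h0' hc (by
          intro r hr1 hr2 x y hx1 hx2 hy1 hy2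
          exact hu r hr1 hr2 x y (by linarith) (by linarith) (by linarith) (by linarith)
            (by rw [abs_lt]; constructor <;> linarith))
        rw [hNe] at this
        exact this
    have h3 := abs_sub_le (L b m s n t) (L b m s₀ n t) (L b m s₀ n t₀)
    linarith
  · subst heq
    refine ⟨min (d / 2) 1, lt_min (by linarith) one_pos, ?_⟩
    rintro ⟨s, t⟩ hst hdist
    have hst' : s ≤ t := hst
    rw [Prod.dist_eq, max_lt_iff, Real.dist_eq, Real.dist_eq] at hdist
    obtain ⟨hs, ht⟩ := hdist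
    have hs : |s - s₀| < min (d / 2) 1 := hs
    have ht : |t - s₀| < min (d / 2) 1 := ht
    rw [lt_min_iff] at hs ht
    have hs1' := abs_lt.1 hs.1
    have hs2' := abs_lt.1 hs.2
    have ht1' := abs_lt.1 ht.1
    have ht2' := abs_lt.1 ht.2
    rw [Real.dist_eq]
    show |L b m s n t - L b m s₀ n s₀| < ε
    rw [(one b).2 m n s₀ hmn, sub_zero]
    have := (hM (ε / (4 * N))).2.2 s t hst' (by
      intro r hr1 hr2 x y hx1 hx2 hy1 hy2
      exact hu r hr1 hr2 x y (by linarith) (by linarith) (by linarith) (by linarith)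
        (by rw [abs_lt]; constructor <;> linarith))
    rw [hNe] at this
    linarith

end Pool.Agent.BLP.H72
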