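import Pool.Agent.BLP.StmtsA

/-!
Rows A_MOD, A_LIP of squad BLP.
-/

namespace Pool.Agent.BLP.H72

open Finset

/-- comparison of energies level by level -/
theorem en_le (b b' : Env) (τ σ : ℤ → ℝ) (m n : ℤ) (hmn : m ≤ n) (w : ℝ)
    (h : ∀ r, m ≤ r → r ≤ n → b r (τ r) - b r (τ (r - 1)) ≤ b' r (σ r) - b' r (σ (r - 1)) + w) :
    En b τ m n ≤ En b' σ m n + ((n : ℝ) - m + 1) * w := by
  unfold En
  have h1 : ∑ r ∈ Finset.Icc m n, (b r (τ r) - b r (τ (r - 1)))
      ≤ ∑ r ∈ Finset.Icc m n, (b' r (σ r) - b' r (σ (r - 1)) + w) := by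
    apply Finset.sum_le_sum
    intro r hr
    rw [Finset.mem_Icc] at hr
    exact h r hr.1 hr.2
  rw [Finset.sum_add_distrib, Finset.sum_const, Int.card_Icc, nsmul_eq_mul] at h1
  have h2 : (((n + 1 - m).toNat : ℕ) : ℝ) = (n : ℝ) - m + 1 := by
    have h3 : (((n + 1 - m).toNat : ℕ) : ℤ) = n + 1 - m := Int.toNat_of_nonneg (by omega)
    have h4 : (((n + 1 - m).toNat : ℕ) : ℝ) = (((n + 1 - m).toNat : ℤ) : ℝ) := by push_cast; rfl
    rw [h4, h3]
    push_cast
    ring
  rw [h2] at h1
  exact h1

theorem one_le_len (m n : ℤ) (hmn : m ≤ n) : (1 : ℝ) ≤ (n : ℝ) - m + 1 := by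
  have : (m : ℝ) ≤ n := by exact_mod_cast hmn
  linarith

theorem a_mod (pab : PabStmt) (bdd : BddStmt) (inc : IncStmt) : ModStmt := by
  intro b hb m n w hmn
  have hlen := one_le_len m n hmn
  refine ⟨?_, ?_, ?_⟩
  · intro s s' t hss hst hosc
    have hw : 0 ≤ w := by
      have := hosc m le_rfl hmn s s le_rfl hss le_rfl hss
      simpa using this
    have hlow := (inc b hb m n hmn).1 s s' t hss hst
    have hlow2 := hosc m le_rfl hmn s' s hss le_rfl le_rfl hss
    rw [abs_le] at hlow2 ⊢
    have hww : w ≤ ((n : ℝ) - m + 1) * w := by nlinarith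
    refine ⟨by linarith [hlow2.1], ?_⟩
    have hup : L b m s n t ≤ L b m s' n t + ((n : ℝ) - m + 1) * w := by
      apply (bdd b hb m n s t hmn (hss.trans hst)).2.2
      intro τ hτ
      obtain ⟨hp1, hp2, -⟩ := pab m n s t τ hτ hmn
      have hpa : Pa m s' n t (fun r => max (τ r) s') := by
        refine ⟨?_, ?_, ?_⟩
        · show max (τ (m - 1)) s' = s'
          rw [hτ.1]
          exact max_eq_right hss
        · show max (τ n) s' = t
          rw [hτ.2.1]
          exact max_eq_left hst
        · intro r h1 h2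
          exact max_le_max (hτ.2.2 r h1 h2) le_rfl
      have h2 := (bdd b hb m n s' t hmn hst).2.1 _ hpa
      have h3 := en_le b b τ (fun r => max (τ r) s') m n hmn w (by
        intro r hr1 hr2
        show b r (τ r) - b r (τ (r - 1)) ≤ b r (max (τ r) s') - b r (max (τ (r - 1)) s') + w
        have hm := hτ.2.2 r hr1 hr2
        have ha := hp2 (r - 1) (by omega) (by omega)
        have hb' := hp2 r (by omega) hr2
        rcases le_total s' (τ (r - 1)) with hc | hc
        · rw [max_eq_left (hc.trans hm), max_eq_left hc]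
          linarith
        · rcases le_total (τ r) s' with hd | hd
          · rw [max_eq_right hd, max_eq_right hc]
            have := hosc r hr1 hr2 (τ r) (τ (r - 1)) hb'.1 hd ha.1 hc
            rw [abs_le] at this
            linarith [this.2]
          · rw [max_eq_left hd, max_eq_right hc]
            have := hosc r hr1 hr2 s' (τ (r - 1)) hss le_rfl ha.1 hc
            rw [abs_le] at this
            linarith [this.2])
      linarith
    linarith
  · intro s t' t hst htt hosc
    have hw : 0 ≤ w := by
      have := hosc m le_rfl hmn t t htt le_rfl htt le_rfl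
      simpa using this
    have hlow := (inc b hb m n hmn).2.1 s t' t hst htt
    have hlow2 := hosc n hmn le_rfl t t' htt le_rfl le_rfl htt
    rw [abs_le] at hlow2 ⊢
    have hww : w ≤ ((n : ℝ) - m + 1) * w := by nlinarith
    refine ⟨by linarith [hlow2.1], ?_⟩
    have hup : L b m s n t ≤ L b m s n t' + ((n : ℝ) - m + 1) * w := by
      apply (bdd b hb m n s t hmn (hst.trans htt)).2.2
      intro τ hτ
      obtain ⟨hp1, hp2, -⟩ := pab m n s t τ hτ hmn
      have hpa : Pa m s n t' (fun r => min (τ r) t') := by
        refine ⟨?_, ?_, ?_⟩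
        · show min (τ (m - 1)) t' = s
          rw [hτ.1]
          exact min_eq_left hst
        · show min (τ n) t' = t'
          rw [hτ.2.1]
          exact min_eq_right htt
        · intro r h1 h2
          exact min_le_min (hτ.2.2 r h1 h2) le_rfl
      have h2 := (bdd b hb m n s t' hmn hst).2.1 _ hpa
      have h3 := en_le b b τ (fun r => min (τ r) t') m n hmn w (by
        intro r hr1 hr2
        show b r (τ r) - b r (τ (r - 1)) ≤ b r (min (τ r) t') - b r (min (τ (r - 1)) t') + w
        have hm := hτ.2.2 r hr1 hr2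
        have ha := hp2 (r - 1) (by omega) (by omega)
        have hb' := hp2 r (by omega) hr2
        rcases le_total (τ r) t' with hc | hc
        · rw [min_eq_left hc, min_eq_left (hm.trans hc)]
          linarith
        · rcases le_total t' (τ (r - 1)) with hd | hd
          · rw [min_eq_right hc, min_eq_right hd]
            have := hosc r hr1 hr2 (τ r) (τ (r - 1)) hc hb'.2 hd ha.2
            rw [abs_le] at this
            linarith [this.2]
          · rw [min_eq_right hc, min_eq_left hd]
            have := hosc r hr1 hr2 (τ r) t' hc hb'.2 le_rfl htt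
            rw [abs_le] at this
            linarith [this.2])
      linarith
    linarith
  · intro s t hst hosc
    have hw : 0 ≤ w := by
      have := hosc m le_rfl hmn t t hst le_rfl hst le_rfl
      simpa using this
    have hlow := (inc b hb m n hmn).2.2 m s t le_rfl hmn hst
    have hlow2 := hosc m le_rfl hmn t s hst le_rfl le_rfl hst
    rw [abs_le] at hlow2 ⊢
    have hww : w ≤ ((n : ℝ) - m + 1) * w := by nlinarith
    refine ⟨by linarith [hlow2.1], ?_⟩
    apply (bdd b hb m n s t hmn hst).2.2
    intro τ hτ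
    obtain ⟨hp1, hp2, -⟩ := pab m n s t τ hτ hmn
    have h3 := en_le b (fun _ _ => 0) τ τ m n hmn w (by
      intro r hr1 hr2
      have ha := hp2 (r - 1) (by omega) (by omega)
      have hb' := hp2 r (by omega) hr2
      have := hosc r hr1 hr2 (τ r) (τ (r - 1)) hb'.1 hb'.2 ha.1 ha.2
      rw [abs_le] at this
      show b r (τ r) - b r (τ (r - 1)) ≤ 0 - 0 + w
      linarith [this.2])
    have h4 : En (fun _ _ => 0) τ m n = 0 := by
      unfold En
      simp
    rw [h4] at h3
    linarith

end Pool.Agent.BLP.H72
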