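import Pool.Agent.BLP.StmtsD

/-!
# Squad BLP, row D_GRD: choice of the grid point
-/

namespace Pool.Agent.BLP.H72

open Pool.Agent.BLP

theorem d_grd : GrdStmt := by
  intro θ δ hθ hδ
  refine ⟨⌈2 / θ⌉₊ + ⌈θ⌉₊ + 1, ⌈4 / θ⌉₊ + ⌈2 / δ⌉₊ + 3, by omega, by omega, ?_⟩
  intro G hG
  have h1 : 4 / θ ≤ (⌈4 / θ⌉₊ : ℝ) := Nat.le_ceil _
  have h2 : 2 / δ ≤ (⌈2 / δ⌉₊ : ℝ) := Nat.le_ceil _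
  have hGR : ((⌈4 / θ⌉₊ : ℝ) + ⌈2 / δ⌉₊ + 3) ≤ (G : ℝ) := by exact_mod_cast hG
  have p1 : (0 : ℝ) ≤ (⌈4 / θ⌉₊ : ℝ) := Nat.cast_nonneg _
  have p2 : (0 : ℝ) ≤ (⌈2 / δ⌉₊ : ℝ) := Nat.cast_nonneg _
  have hG3 : (3 : ℝ) ≤ G := by linarith
  have hG0 : (0 : ℝ) < G := by linarith
  have hθG : 4 ≤ θ * G := by
    have : 4 / θ ≤ (G : ℝ) := by linarith
    rw [div_le_iff₀ hθ] at this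
    linarith [mul_comm θ (G : ℝ)]
  have hδG : 2 < δ * G := by
    have : 2 / δ < (G : ℝ) := by linarith
    rw [div_lt_iff₀ hδ] at this
    linarith [mul_comm δ (G : ℝ)]
  have c1 : θ * G ≤ (⌈θ * G⌉₊ : ℝ) := Nat.le_ceil _
  have c2 : (⌈θ * G⌉₊ : ℝ) < θ * G + 1 := Nat.ceil_lt_add_one (by positivity)
  have c3 : 4 ≤ ⌈θ * G⌉₊ := by
    have : (4 : ℝ) ≤ (⌈θ * G⌉₊ : ℝ) := by linarith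
    exact_mod_cast this
  obtain ⟨i, hi⟩ : ∃ i : ℕ, ⌈θ * G⌉₊ = i + 2 := ⟨⌈θ * G⌉₊ - 2, by omega⟩
  rw [hi] at c1 c2
  push_cast at c1 c2
  have a1 : 2 / θ ≤ (⌈2 / θ⌉₊ : ℝ) := Nat.le_ceil _
  have a2 : θ ≤ (⌈θ⌉₊ : ℝ) := Nat.le_ceil _
  have q1 : (0 : ℝ) ≤ (⌈2 / θ⌉₊ : ℝ) := Nat.cast_nonneg _
  have q2 : (0 : ℝ) ≤ (⌈θ⌉₊ : ℝ) := Nat.cast_nonneg _
  refine ⟨i, ?_, ?_, ?_, ?_, ?_, ?_⟩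
  · have hi2 : θ * G / 2 ≤ (i : ℝ) := by linarith
    have hA : 2 / θ ≤ ((⌈2 / θ⌉₊ : ℝ) + ⌈θ⌉₊ + 1) := by linarith
    have hb : (G : ℝ) ≤ ((⌈2 / θ⌉₊ : ℝ) + ⌈θ⌉₊ + 1) * i := by
      calc (G : ℝ) = (2 / θ) * (θ * G / 2) := by field_simp
        _ ≤ ((⌈2 / θ⌉₊ : ℝ) + ⌈θ⌉₊ + 1) * i :=
          mul_le_mul hA hi2 (by positivity) (by positivity)
    exact_mod_cast hb
  · have hA : θ + 1 ≤ ((⌈2 / θ⌉₊ : ℝ) + ⌈θ⌉₊ + 1) := by linarith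
    have hb : (i : ℝ) + 4 ≤ ((⌈2 / θ⌉₊ : ℝ) + ⌈θ⌉₊ + 1) * G := by
      calc (i : ℝ) + 4 ≤ (θ + 1) * G := by linarith
        _ ≤ ((⌈2 / θ⌉₊ : ℝ) + ⌈θ⌉₊ + 1) * G := mul_le_mul_of_nonneg_right hA hG0.le
    exact_mod_cast hb
  · rw [lt_div_iff₀ hG0]
    nlinarith
  · rw [div_lt_iff₀ hG0]
    linarith
  · rw [lt_div_iff₀ hG0]
    linarith
  · rw [div_lt_iff₀ hG0]
    nlinarith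

end Pool.Agent.BLP.H72
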