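import Pool.Agent.Helper72_BLP.A_MOD

/-!
Row A_LIP of squad BLP.
-/

namespace Pool.Agent.BLP.H72

open Finset

theorem lip_aux (pab : PabStmt) (bdd : BddStmt) (b b' : Env) (hb : Cts b) (hb' : Cts b')
    (m n : ℤ) (s t w : ℝ) (hmn : m ≤ n) (hst : s ≤ t)
    (h : ∀ r, m ≤ r → r ≤ n → ∀ x, s ≤ x → x ≤ t → |b r x - b' r x| ≤ w) :
    L b m s n t ≤ L b' m s n t + 2 * ((n : ℝ) - m + 1) * w := by
  apply (bdd b hb m n s t hmn hst).2.2
  intro τ hτ
  obtain ⟨hp1, hp2, -⟩ := pab m n s t τ hτ hmn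
  have h2 := (bdd b' hb' m n s t hmn hst).2.1 τ hτ
  have h3 := en_le b b' τ τ m n hmn (2 * w) (by
    intro r hr1 hr2
    have ha := hp2 (r - 1) (by omega) (by omega)
    have hc := hp2 r (by omega) hr2
    have h4 := h r hr1 hr2 (τ (r - 1)) ha.1 ha.2
    have h5 := h r hr1 hr2 (τ r) hc.1 hc.2
    rw [abs_le] at h4 h5
    linarith [h4.1, h5.2])
  linarith

theorem a_lip (pab : PabStmt) (bdd : BddStmt) : LipStmt := by
  intro b b' hb hb' m n s t w hmn hst h
  have h1 := lip_aux pab bdd b b' hb hb' m n s t w hmn hst h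
  have h2 := lip_aux pab bdd b' b hb' hb m n s t w hmn hst (by
    intro r hr1 hr2 x hx1 hx2
    rw [abs_sub_comm]
    exact h r hr1 hr2 x hx1 hx2)
  rw [abs_le]
  constructor <;> linarith

end Pool.Agent.BLP.H72
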